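import Mathlib

open Filter Topology

namespace Pool.Agent.Results.MP_a6d20f_an.NoScalarAcceleration

/-- The class of scalar `L`-smooth `μ`-strongly convex functions: differentiable `f : ℝ → ℝ`
all of whose difference quotients of the derivative lie in `[μ, L]`. -/
def ScalarClass (μ L : ℝ) : Set (ℝ → ℝ) :=
  {f | Differentiable ℝ f ∧ ∀ x y : ℝ, x ≠ y →
    μ ≤ (deriv f x - deriv f y) / (x - y) ∧ (deriv f x - deriv f y) / (x - y) ≤ L}

/-- `x 0, x 1, x 2, …` is a run of the heavy-ball method with step size `γ` and momentum `β`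
on `f` (the starting points `x 0`, `x 1` are arbitrary). -/
def IsHeavyBallRun (γ β : ℝ) (f : ℝ → ℝ) (x : ℕ → ℝ) : Prop :=
  ∀ t : ℕ, x (t + 2) = (1 + β) * x (t + 1) - β * x t - γ * deriv f (x (t + 1))

/-- Worst-case asymptotic rate of the heavy-ball method with parameters `γ, β` on the scalar
class, an element of `[0, ∞]`: the supremum over all functions of the class, their minimisers
`xs` and all runs of `limsup |x_t - xs| ^ (1/t)`. -/
noncomputable def rate (γ β μ L : ℝ) : ENNReal :=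
  ⨆ (f : ℝ → ℝ) (_ : f ∈ ScalarClass μ L) (xs : ℝ) (_ : ∀ y : ℝ, f xs ≤ f y)
    (x : ℕ → ℝ) (_ : IsHeavyBallRun γ β f x),
    limsup (fun t : ℕ => ENNReal.ofReal (|x t - xs| ^ ((1 : ℝ) / (t : ℝ)))) atTop

/-- The tuning `(γ, β)` (functions of `μ` and `L`) accelerates over the scalar class:
`1 - rate ≥ c √(μ/L)` whenever `μ/L ≤ κ₀`. -/
def Accelerates (γ β : ℝ → ℝ → ℝ) : Prop :=
  ∃ c : ℝ, 0 < c ∧ ∃ κ₀ : ℝ, 0 < κ₀ ∧ κ₀ < 1 ∧ ∀ μ L : ℝ, 0 < μ → μ < L → μ / L ≤ κ₀ →
    rate (γ μ L) (β μ L) μ L + ENNReal.ofReal (c * Real.sqrt (μ / L)) ≤ 1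

/-! ### Sanity: every function of the class has exactly one minimiser -/

lemma deriv_sub_bounds {μ L : ℝ} {f : ℝ → ℝ} (hf : f ∈ ScalarClass μ L) {x y : ℝ} (h : y < x) :
    μ * (x - y) ≤ deriv f x - deriv f y ∧ deriv f x - deriv f y ≤ L * (x - y) := by
  have h1 := hf.2 x y (ne_of_gt h)
  have h2 : 0 < x - y := sub_pos.mpr h
  constructor
  · have := (le_div_iff₀ h2).mp h1.1
    linarith
  · have := (div_le_iff₀ h2).mp h1.2
    linarith

lemma deriv_continuous {μ L : ℝ} {f : ℝ → ℝ} (hμ : 0 < μ)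
    (hf : f ∈ ScalarClass μ L) : Continuous (deriv f) := by
  have hL : LipschitzWith (Real.toNNReal L) (deriv f) := by
    apply LipschitzWith.of_dist_le_mul
    intro x y
    rw [Real.dist_eq, Real.dist_eq]
    have key : ∀ a b : ℝ, b < a → |deriv f a - deriv f b| ≤ (Real.toNNReal L : ℝ) * |a - b| := by
      intro a b hab
      have hb := deriv_sub_bounds hf hab
      have hpos : 0 < a - b := sub_pos.mpr hab
      rw [abs_of_nonneg (by nlinarith [hb.1, mul_pos hμ hpos]), abs_of_pos hpos]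
      refine hb.2.trans ?_
      exact mul_le_mul_of_nonneg_right (Real.le_coe_toNNReal L) hpos.le
    rcases lt_trichotomy x y with h | h | h
    · rw [abs_sub_comm, abs_sub_comm x y]
      exact key y x h
    · subst h; simp
    · exact key x y h
  exact hL.continuous

lemma exists_critical {μ L : ℝ} {f : ℝ → ℝ} (hμ : 0 < μ)
    (hf : f ∈ ScalarClass μ L) : ∃ xs : ℝ, deriv f xs = 0 := by
  have hc := deriv_continuous hμ hf
  set a : ℝ := deriv f 0 with ha
  -- at `-|a|/μ - 1` the derivative is `≤ 0`, at `|a|/μ + 1` it is `≥ 0`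
  have hp : 0 ≤ |a| / μ := by positivity
  have h1 := deriv_sub_bounds hf (x := |a| / μ + 1) (y := 0) (by linarith)
  have h2 := deriv_sub_bounds hf (x := 0) (y := -(|a| / μ + 1)) (by linarith)
  have h3 : μ * (|a| / μ) = |a| := by field_simp
  have h4 : 0 ≤ deriv f (|a| / μ + 1) := by
    have := h1.1
    have h5 := neg_abs_le a
    nlinarith
  have h5 : deriv f (-(|a| / μ + 1)) ≤ 0 := by
    have := h2.1
    have h6 := le_abs_self a
    nlinarith
  have hmem : (0 : ℝ) ∈ Set.Icc (deriv f (-(|a| / μ + 1))) (deriv f (|a| / μ + 1)) := ⟨h5, h4⟩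
  have hivt := intermediate_value_Icc (a := -(|a| / μ + 1)) (b := |a| / μ + 1) (by linarith)
    (hc.continuousOn)
  obtain ⟨xs, _, hxs⟩ := hivt hmem
  exact ⟨xs, hxs⟩

lemma isMin_of_critical {μ L : ℝ} {f : ℝ → ℝ} (hμ : 0 < μ)
    (hf : f ∈ ScalarClass μ L) {xs : ℝ} (h0 : deriv f xs = 0) : ∀ y : ℝ, f xs ≤ f y := by
  have h : IsMinOn f Set.univ xs := by
    refine isMinOn_univ_of_deriv (hf.1.continuous.continuousAt) hf.1.differentiableOn
      hf.1.differentiableOn ?_ ?_
    · intro x hx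
      have hx' : x < xs := hx
      have := (deriv_sub_bounds hf hx').1
      have h2 : 0 < xs - x := sub_pos.mpr hx'
      nlinarith [mul_pos hμ h2]
    · intro x hx
      have hx' : xs < x := hx
      have := (deriv_sub_bounds hf hx').1
      have h2 : 0 < x - xs := sub_pos.mpr hx'
      nlinarith [mul_pos hμ h2]
  intro y
  exact h (Set.mem_univ y)

/-- Every function of the class has exactly one minimiser. -/
theorem existsUnique_minimiser {μ L : ℝ} {f : ℝ → ℝ} (hμ : 0 < μ)
    (hf : f ∈ ScalarClass μ L) : ∃! xs : ℝ, ∀ y : ℝ, f xs ≤ f y := by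
  obtain ⟨xs, hxs⟩ := exists_critical hμ hf
  refine ⟨xs, isMin_of_critical hμ hf hxs, ?_⟩
  intro z hz
  have hz0 : deriv f z = 0 := by
    have : IsLocalMin f z := Filter.Eventually.of_forall hz
    exact this.deriv_eq_zero
  by_contra hne
  rcases lt_or_gt_of_ne hne with h | h
  · have := (deriv_sub_bounds hf h).1
    have h2 : 0 < xs - z := sub_pos.mpr h
    nlinarith [mul_pos hμ h2]
  · have := (deriv_sub_bounds hf h).1
    have h2 : 0 < z - xs := sub_pos.mpr h
    nlinarith [mul_pos hμ h2]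

/-! ### Part A: what acceleration on quadratics forces -/

lemma quad_deriv (l : ℝ) : deriv (fun x : ℝ => l * x ^ 2 / 2) = fun x => l * x := by
  funext x
  have h : HasDerivAt (fun x : ℝ => l * x ^ 2 / 2) (l * (2 * x) / 2) x := by
    have := ((hasDerivAt_pow 2 x).const_mul l).div_const 2
    simpa using this
  rw [h.deriv]; ring

lemma quad_mem {μ L l : ℝ} (h1 : μ ≤ l) (h2 : l ≤ L) :
    (fun x : ℝ => l * x ^ 2 / 2) ∈ ScalarClass μ L := by
  constructor
  · fun_prop
  · intro x y hxy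
    rw [quad_deriv]
    have : (l * x - l * y) / (x - y) = l := by
      have : x - y ≠ 0 := sub_ne_zero.mpr hxy
      field_simp
    rw [this]
    exact ⟨h1, h2⟩

lemma le_rate {γ β μ L : ℝ} {f : ℝ → ℝ} (hf : f ∈ ScalarClass μ L) {xs : ℝ}
    (hxs : ∀ y : ℝ, f xs ≤ f y) {x : ℕ → ℝ} (hx : IsHeavyBallRun γ β f x) :
    limsup (fun t : ℕ => ENNReal.ofReal (|x t - xs| ^ ((1 : ℝ) / (t : ℝ)))) atTop
      ≤ rate γ β μ L := by
  unfold rate
  refine le_iSup_of_le f (le_iSup_of_le hf (le_iSup_of_le xs (le_iSup_of_le hxs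
    (le_iSup_of_le x (le_iSup_of_le hx le_rfl)))))

/-- If the rate is at most `1 - η`, every run on a quadratic is eventually below `r ^ t`. -/
lemma quad_decay {γ β μ L l η r : ℝ} (h1 : μ ≤ l) (h2 : l ≤ L) (hμ : 0 < μ)
    (hη : 0 < η) (hr : 0 < r) (hηr : 1 - η < r)
    (hrate : rate γ β μ L + ENNReal.ofReal η ≤ 1) {x : ℕ → ℝ}
    (hx : ∀ t : ℕ, x (t + 2) = (1 + β - γ * l) * x (t + 1) - β * x t) :
    ∀ᶠ t : ℕ in atTop, |x t| ≤ r ^ t := by
  have hmem := quad_mem h1 h2
  have hmin : ∀ y : ℝ, (fun x : ℝ => l * x ^ 2 / 2) 0 ≤ (fun x : ℝ => l * x ^ 2 / 2) y := by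
    intro y
    have : 0 < l := lt_of_lt_of_le hμ h1
    simp only
    have : 0 ≤ l * y ^ 2 / 2 := by positivity
    simpa using this
  have hrun : IsHeavyBallRun γ β (fun x : ℝ => l * x ^ 2 / 2) x := by
    intro t
    rw [quad_deriv, hx t]
    ring
  have hle := le_rate hmem hmin hrun
  have hlt : limsup (fun t : ℕ => ENNReal.ofReal (|x t - 0| ^ ((1 : ℝ) / (t : ℝ)))) atTop
      < ENNReal.ofReal r := by
    by_contra hcon
    push Not at hcon
    have h3 : ENNReal.ofReal r + ENNReal.ofReal η ≤ 1 :=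
      (add_le_add_left (hcon.trans hle) _).trans hrate
    rw [← ENNReal.ofReal_add hr.le hη.le, ← ENNReal.ofReal_one] at h3
    have h4 := (ENNReal.ofReal_le_ofReal_iff (by norm_num)).mp h3
    linarith
  have hev := eventually_lt_of_limsup_lt hlt
  filter_upwards [hev, eventually_ge_atTop 1] with t ht ht1
  rw [sub_zero] at ht
  have h5 : |x t| ^ ((1 : ℝ) / (t : ℝ)) < r :=
    (ENNReal.ofReal_lt_ofReal_iff hr).mp ht
  have ht0 : (t : ℝ) ≠ 0 := by
    have : (0 : ℝ) < t := by exact_mod_cast ht1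
    exact ne_of_gt this
  have h6 : (|x t| ^ ((1 : ℝ) / (t : ℝ))) ^ t ≤ r ^ t :=
    pow_le_pow_left₀ (by positivity) h5.le t
  rw [← Real.rpow_natCast, ← Real.rpow_mul (abs_nonneg _), one_div, inv_mul_cancel₀ ht0,
    Real.rpow_one] at h6
  exact h6

/-- Complex roots of the characteristic polynomial have modulus at most `1 - η`. -/
lemma root_bound {γ β μ L l η : ℝ} (h1 : μ ≤ l) (h2 : l ≤ L) (hμ : 0 < μ)
    (hη : 0 < η) (hη1 : η < 1)
    (hrate : rate γ β μ L + ENNReal.ofReal η ≤ 1) {z : ℂ}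
    (hz : z ^ 2 = ((1 + β - γ * l : ℝ) : ℂ) * z - ((β : ℝ) : ℂ)) :
    ‖z‖ ≤ 1 - η := by
  by_contra hcon
  push Not at hcon
  obtain ⟨r, hr1, hr2⟩ := exists_between hcon
  have hr0 : 0 < r := by linarith
  have hrec : ∀ t : ℕ, z ^ (t + 2) = ((1 + β - γ * l : ℝ) : ℂ) * z ^ (t + 1)
      - ((β : ℝ) : ℂ) * z ^ t := by
    intro t
    calc z ^ (t + 2) = z ^ t * z ^ 2 := by ring
      _ = _ := by rw [hz]; ring
  have hre : ∀ t : ℕ, (z ^ (t + 2)).re = (1 + β - γ * l) * (z ^ (t + 1)).re
      - β * (z ^ t).re := by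
    intro t
    rw [hrec t, Complex.sub_re, Complex.re_ofReal_mul, Complex.re_ofReal_mul]
  have him : ∀ t : ℕ, (z ^ (t + 2)).im = (1 + β - γ * l) * (z ^ (t + 1)).im
      - β * (z ^ t).im := by
    intro t
    rw [hrec t, Complex.sub_im, Complex.im_ofReal_mul, Complex.im_ofReal_mul]
  have e1 := quad_decay h1 h2 hμ hη hr0 hr1 hrate (x := fun t => (z ^ t).re) hre
  have e2 := quad_decay h1 h2 hμ hη hr0 hr1 hrate (x := fun t => (z ^ t).im) him
  have e3 : ∀ᶠ t : ℕ in atTop, (‖z‖ / r) ^ t ≤ 2 := by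
    filter_upwards [e1, e2] with t ht1 ht2
    have h3 : ‖z ^ t‖ ≤ |(z ^ t).re| + |(z ^ t).im| := Complex.norm_le_abs_re_add_abs_im _
    rw [norm_pow] at h3
    rw [div_pow, div_le_iff₀ (by positivity)]
    linarith
  have e4 : Tendsto (fun t : ℕ => (‖z‖ / r) ^ t) atTop atTop :=
    tendsto_pow_atTop_atTop_of_one_lt ((one_lt_div hr0).mpr hr2)
  have e5 := e4.eventually_gt_atTop 2
  obtain ⟨t, ht1, ht2⟩ := (e3.and e5).exists
  linarith

/-- A real quadratic `z² - b z + β` has two complex roots. -/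
lemma exists_roots (b β : ℝ) : ∃ z w : ℂ, z + w = (b : ℂ) ∧ z * w = (β : ℂ) := by
  obtain ⟨s, hs⟩ := IsAlgClosed.exists_eq_mul_self (((b : ℂ)) ^ 2 - 4 * (β : ℂ))
  refine ⟨((b : ℂ) + s) / 2, ((b : ℂ) - s) / 2, by ring, ?_⟩
  have : ((b : ℂ) + s) / 2 * (((b : ℂ) - s) / 2) = ((b : ℂ) ^ 2 - s * s) / 4 := by ring
  rw [this, ← hs]; ring

/-- Consequences of a rate at most `1 - η` for the parameters, read off the quadratic
with curvature `l`. -/
lemma quad_consequences {γ β μ L l η : ℝ} (h1 : μ ≤ l) (h2 : l ≤ L) (hμ : 0 < μ)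
    (hη : 0 < η) (hη1 : η < 1)
    (hrate : rate γ β μ L + ENNReal.ofReal η ≤ 1) :
    |β| ≤ 1 ∧ η ^ 2 ≤ γ * l ∧ γ * l ≤ 4 ∧ (1 - β) * η ≤ 2 * (γ * l) := by
  obtain ⟨z, w, hzw, hzw'⟩ := exists_roots (1 + β - γ * l) β
  have hz : z ^ 2 = ((1 + β - γ * l : ℝ) : ℂ) * z - ((β : ℝ) : ℂ) := by
    rw [← hzw, ← hzw']; ring
  have hw : w ^ 2 = ((1 + β - γ * l : ℝ) : ℂ) * w - ((β : ℝ) : ℂ) := by
    rw [← hzw, ← hzw']; ring
  have bz := root_bound h1 h2 hμ hη hη1 hrate hz
  have bw := root_bound h1 h2 hμ hη hη1 hrate hw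
  have hre := congrArg Complex.re hzw
  have him := congrArg Complex.im hzw
  have hre' := congrArg Complex.re hzw'
  have him' := congrArg Complex.im hzw'
  simp only [Complex.add_re, Complex.ofReal_re, Complex.add_im, Complex.ofReal_im,
    Complex.mul_re, Complex.mul_im] at hre him hre' him'
  have hzr : |z.re| ≤ 1 - η := (Complex.abs_re_le_norm z).trans bz
  have hwr : |w.re| ≤ 1 - η := (Complex.abs_re_le_norm w).trans bw
  have hβ : |β| ≤ 1 := by
    have : ‖z * w‖ = |β| := by rw [hzw', Complex.norm_real]; rfl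
    rw [norm_mul] at this
    rw [← this]
    have h3 : ‖z‖ * ‖w‖ ≤ 1 * 1 :=
      mul_le_mul (by linarith) (by linarith) (norm_nonneg _) (by norm_num)
    simpa using h3
  rw [abs_le] at hzr hwr
  set a := z.re
  set a' := w.re
  set v := z.im
  have hw2 : w.im = -v := by linarith
  rw [hw2] at hre' him'
  -- `γ l = (1-a)(1-a') + v²`
  have key : γ * l = (1 - a) * (1 - a') + v ^ 2 := by nlinarith
  have hA : η ≤ 1 - a := by linarith [hzr.2]
  have hA' : η ≤ 1 - a' := by linarith [hwr.2]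
  refine ⟨hβ, ?_, ?_, ?_⟩
  · nlinarith [mul_le_mul hA hA' hη.le (by linarith), sq_nonneg v]
  · have hb := abs_le.mp hβ
    have : γ * l = 1 + β - (a + a') := by linarith
    rw [this]
    linarith [hzr.1, hwr.1, hb.2]
  · have h3 : 1 - β = (1 - a) + (1 - a') - γ * l := by linarith
    rw [h3]
    have h4 : 0 ≤ (1 - a) * ((1 - a') - η) := mul_nonneg (by linarith) (by linarith)
    have h5 : 0 ≤ (1 - a') * ((1 - a) - η) := mul_nonneg (by linarith) (by linarith)
    have h6 : 0 ≤ γ * l * η := by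
      apply mul_nonneg _ hη.le
      rw [key]
      have : 0 ≤ (1 - a) * (1 - a') := mul_nonneg (by linarith) (by linarith)
      nlinarith [sq_nonneg v]
    nlinarith [sq_nonneg v]

/-! ### Part B: cycles -/

/-- If some function of the class has a nonconstant periodic run, the rate is at least `1`. -/
lemma one_le_rate_of_cycle {γ β μ L : ℝ} (hμ : 0 < μ) {f : ℝ → ℝ} (hf : f ∈ ScalarClass μ L)
    {x : ℕ → ℝ} (hx : IsHeavyBallRun γ β f x) {K : ℕ} (hK : 0 < K)
    (hper : ∀ t, x (t + K) = x t) (h01 : x 0 ≠ x 1) : 1 ≤ rate γ β μ L := by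
  obtain ⟨xs, hxs, _⟩ := existsUnique_minimiser hμ hf
  have hex : ∃ t0 : ℕ, x t0 ≠ xs := by
    by_contra hcon
    push Not at hcon
    exact h01 ((hcon 0).trans (hcon 1).symm)
  obtain ⟨t0, ht0⟩ := hex
  have hper' : ∀ n : ℕ, x (t0 + n * K) = x t0 := by
    intro n
    induction n with
    | zero => simp
    | succ n ih =>
      rw [← ih, show t0 + (n + 1) * K = (t0 + n * K) + K by ring]
      exact hper _
  have ha : 0 < |x t0 - xs| := abs_pos.mpr (sub_ne_zero.mpr ht0)
  set u : ℕ → ENNReal := fun t : ℕ => ENNReal.ofReal (|x t - xs| ^ ((1 : ℝ) / (t : ℝ))) with hu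
  have hφ : Tendsto (fun n : ℕ => t0 + n * K) atTop atTop := by
    refine tendsto_atTop_mono (fun n => ?_) tendsto_id
    have : n * 1 ≤ n * K := Nat.mul_le_mul_left n hK
    simp only [id]
    omega
  have hlim : Tendsto (fun n : ℕ => u (t0 + n * K)) atTop (𝓝 1) := by
    have h1 : Tendsto (fun n : ℕ => |x t0 - xs| ^ ((1 : ℝ) / (((t0 + n * K : ℕ)) : ℝ))) atTop
        (𝓝 (|x t0 - xs| ^ (0 : ℝ))) := by
      refine Tendsto.rpow tendsto_const_nhds ?_ (Or.inl (ne_of_gt ha))
      have h2 : Tendsto (fun n : ℕ => (1 : ℝ) / ((n : ℕ) : ℝ)) atTop (𝓝 0) :=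
        tendsto_one_div_atTop_nhds_zero_nat
      exact h2.comp hφ
    rw [Real.rpow_zero] at h1
    have h3 := (ENNReal.continuous_ofReal.tendsto 1).comp h1
    rw [ENNReal.ofReal_one] at h3
    refine h3.congr (fun n => ?_)
    simp only [hu, Function.comp]
    rw [hper' n]
  have hle : limsup (fun n : ℕ => u (t0 + n * K)) atTop ≤ limsup u atTop := by
    have := limsup_le_limsup_of_le (u := u) hφ
    exact this
  rw [hlim.limsup_eq] at hle
  exact hle.trans (le_rate hf hxs hx)

/-- Extension of finitely many data points to a function of the class whose derivative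
takes the prescribed values. -/
lemma exists_interpolant {μ L : ℝ} {K : ℕ} (hK : 0 < K) (hμL : μ ≤ L) (x g : ℕ → ℝ)
    (hslope : ∀ s < K, ∀ t < K, x t ≤ x s →
      μ * (x s - x t) ≤ g s - g t ∧ g s - g t ≤ L * (x s - x t)) :
    ∃ f ∈ ScalarClass μ L, ∀ t < K, deriv f (x t) = g t := by
  have hne : (Finset.range K).Nonempty := Finset.nonempty_range_iff.mpr (by omega)
  set T : ℕ → ℝ → ℝ := fun t z => (g t - μ * x t) + (L - μ) * max (z - x t) 0 with hT
  set H : ℝ → ℝ := fun z => (Finset.range K).inf' hne (fun t => T t z) with hH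
  have hD : 0 ≤ L - μ := by linarith
  -- monotone and Lipschitz pieces
  have hTmono : ∀ t, ∀ y z : ℝ, y ≤ z → T t y ≤ T t z := by
    intro t y z hyz
    have : max (y - x t) 0 ≤ max (z - x t) 0 := max_le_max (by linarith) le_rfl
    simp only [hT]
    nlinarith
  have hTlip : ∀ t, ∀ y z : ℝ, y ≤ z → T t z ≤ T t y + (L - μ) * (z - y) := by
    intro t y z hyz
    have : max (z - x t) 0 ≤ max (y - x t) 0 + (z - y) := by
      apply max_le
      · have := le_max_left (y - x t) 0
        linarith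
      · have := le_max_right (y - x t) 0
        linarith
    simp only [hT]
    nlinarith
  have hHmono : ∀ y z : ℝ, y ≤ z → H y ≤ H z := by
    intro y z hyz
    apply Finset.le_inf'
    intro t ht
    exact (Finset.inf'_le _ ht).trans (hTmono t y z hyz)
  have hHlip : ∀ y z : ℝ, y ≤ z → H z ≤ H y + (L - μ) * (z - y) := by
    intro y z hyz
    have : H z - (L - μ) * (z - y) ≤ H y := by
      apply Finset.le_inf'
      intro t ht
      have h1 : H z ≤ T t z := Finset.inf'_le _ ht
      have h2 := hTlip t y z hyz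
      linarith
    linarith
  have hHval : ∀ t < K, H (x t) = g t - μ * x t := by
    intro t ht
    apply le_antisymm
    · have h1 : H (x t) ≤ T t (x t) := Finset.inf'_le _ (Finset.mem_range.mpr ht)
      simpa [hT] using h1
    · apply Finset.le_inf'
      intro s hs
      have hs' := Finset.mem_range.mp hs
      simp only [hT]
      rcases le_total (x s) (x t) with h | h
      · have h1 := (hslope t ht s hs' h).2
        rw [max_eq_left (by linarith)]
        nlinarith
      · have h1 := (hslope s hs' t ht h).1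
        rw [max_eq_right (by linarith)]
        nlinarith
  set G : ℝ → ℝ := fun z => μ * z + H z with hG
  have hGlow : ∀ y z : ℝ, y ≤ z → μ * (z - y) ≤ G z - G y := by
    intro y z hyz
    have := hHmono y z hyz
    simp only [hG]; linarith
  have hGup : ∀ y z : ℝ, y ≤ z → G z - G y ≤ L * (z - y) := by
    intro y z hyz
    have := hHlip y z hyz
    simp only [hG]; linarith
  have hGcont : Continuous G := by
    have hHc : Continuous H := by
      have hL : LipschitzWith (Real.toNNReal (L - μ)) H := by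
        apply LipschitzWith.of_dist_le_mul
        intro y z
        rw [Real.dist_eq, Real.dist_eq, Real.coe_toNNReal _ hD]
        rcases le_total y z with h | h
        · have h1 := hHmono y z h
          have h2 := hHlip y z h
          rw [abs_sub_comm, abs_sub_comm y z, abs_of_nonneg (by linarith),
            abs_of_nonneg (by linarith)]
          linarith
        · have h1 := hHmono z y h
          have h2 := hHlip z y h
          rw [abs_of_nonneg (by linarith), abs_of_nonneg (by linarith)]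
          linarith
      exact hL.continuous
    exact (continuous_const.mul continuous_id).add hHc
  have hder : ∀ z : ℝ, HasDerivAt (fun u : ℝ => ∫ w in (0 : ℝ)..u, G w) (G z) z := by
    intro z
    exact (hGcont.integral_hasStrictDerivAt 0 z).hasDerivAt
  refine ⟨fun u : ℝ => ∫ w in (0 : ℝ)..u, G w, ⟨fun z => (hder z).differentiableAt, ?_⟩, ?_⟩
  · intro y z hyz
    rw [(hder y).deriv, (hder z).deriv]
    rcases lt_or_gt_of_ne hyz with h | h
    · have h1 := hGlow y z h.le
      have h2 := hGup y z h.le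
      have h3 : 0 < z - y := by linarith
      have h4 : (G y - G z) / (y - z) = (G z - G y) / (z - y) := by
        rw [← neg_sub (G z) (G y), ← neg_sub z y, neg_div_neg_eq]
      rw [h4]
      exact ⟨(le_div_iff₀ h3).mpr h1, (div_le_iff₀ h3).mpr h2⟩
    · have h1 := hGlow z y h.le
      have h2 := hGup z y h.le
      have h3 : 0 < y - z := by linarith
      exact ⟨(le_div_iff₀ h3).mpr h1, (div_le_iff₀ h3).mpr h2⟩
  · intro t ht
    rw [(hder (x t)).deriv]
    simp only [hG]
    rw [hHval t ht]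
    ring

/-- The sample points `cos ((4t+1)π/(2K))` of one period of the cosine. -/
noncomputable def pt (K : ℕ) (t : ℤ) : ℝ := Real.cos ((4 * (t : ℝ) + 1) * (Real.pi / (2 * K)))

lemma pt_period {K : ℕ} (hK : 0 < K) (t : ℤ) : pt K (t + K) = pt K t := by
  unfold pt
  have hK' : (K : ℝ) ≠ 0 := by
    have : (0 : ℝ) < K := by exact_mod_cast hK
    exact ne_of_gt this
  have : (4 * ((t + K : ℤ) : ℝ) + 1) * (Real.pi / (2 * K))
      = (4 * (t : ℝ) + 1) * (Real.pi / (2 * K)) + 2 * Real.pi := by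
    push_cast
    field_simp
    ring
  rw [this, Real.cos_add_two_pi]

lemma pt_injective {K : ℕ} (hK : 0 < K) {s t : ℕ} (hs : s < K) (ht : t < K)
    (h : pt K s = pt K t) : s = t := by
  unfold pt at h
  have hK' : (0 : ℝ) < K := by exact_mod_cast hK
  rw [Real.cos_eq_cos_iff] at h
  obtain ⟨k, hk | hk⟩ := h
  · have h1 : (4 * (t : ℝ) + 1) = 4 * k * K + (4 * (s : ℝ) + 1) := by
      have hp := Real.pi_pos
      push_cast at hk
      field_simp at hk
      nlinarith
    have h2 : (4 * (t : ℤ) + 1) = 4 * k * K + (4 * (s : ℤ) + 1) := by exact_mod_cast h1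
    have h3 : (t : ℤ) - s = k * K := by linarith
    have hk0 : k = 0 := by
      by_contra hk0
      rcases lt_or_gt_of_ne hk0 with hk1 | hk1
      · have : k * (K : ℤ) ≤ -1 * K := by
          apply mul_le_mul_of_nonneg_right _ (by positivity)
          omega
        omega
      · have : 1 * (K : ℤ) ≤ k * K := by
          apply mul_le_mul_of_nonneg_right _ (by positivity)
          omega
        omega
    subst hk0
    omega
  · have h1 : (4 * (t : ℝ) + 1) = 4 * k * K - (4 * (s : ℝ) + 1) := by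
      have hp := Real.pi_pos
      push_cast at hk
      field_simp at hk
      nlinarith
    have h2 : (4 * (t : ℤ) + 1) = 4 * k * K - (4 * (s : ℤ) + 1) := by exact_mod_cast h1
    exfalso
    have h3 : 4 * ((t : ℤ) + s) + 2 = 4 * (k * K) := by linarith
    omega

lemma pt_abs_le (K : ℕ) (t : ℤ) : |pt K t| ≤ 1 := Real.abs_cos_le_one _

lemma pt_rec (K : ℕ) (hK : 0 < K) (t : ℤ) :
    pt K (t + 1) + pt K (t - 1) = 2 * Real.cos (2 * Real.pi / K) * pt K t := by
  unfold pt
  have hK' : (K : ℝ) ≠ 0 := by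
    have : (0 : ℝ) < K := by exact_mod_cast hK
    exact ne_of_gt this
  have h1 : (4 * ((t + 1 : ℤ) : ℝ) + 1) * (Real.pi / (2 * K))
      = (4 * (t : ℝ) + 1) * (Real.pi / (2 * K)) + 2 * Real.pi / K := by
    push_cast
    field_simp
    ring
  have h2 : (4 * ((t - 1 : ℤ) : ℝ) + 1) * (Real.pi / (2 * K))
      = (4 * (t : ℝ) + 1) * (Real.pi / (2 * K)) - 2 * Real.pi / K := by
    push_cast
    field_simp
    ring
  rw [h1, h2, Real.cos_add, Real.cos_sub]
  ring

/-- Minimal distance between the sample points. -/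
lemma exists_gap {K : ℕ} (hK : 0 < K) :
    ∃ d : ℝ, 0 < d ∧ ∀ s < K, ∀ t < K, pt K t < pt K s → d ≤ pt K s - pt K t := by
  classical
  set P : Finset (ℕ × ℕ) := ((Finset.range K) ×ˢ (Finset.range K)).filter
    (fun p => pt K p.2 < pt K p.1) with hP
  by_cases hne : P.Nonempty
  · obtain ⟨p, hp, hmin⟩ := P.exists_min_image (fun p => pt K p.1 - pt K p.2) hne
    refine ⟨pt K p.1 - pt K p.2, ?_, ?_⟩
    · have := (Finset.mem_filter.mp hp).2
      linarith
    · intro s hs t ht hst
      have hm : (s, t) ∈ P := by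
        rw [hP, Finset.mem_filter, Finset.mem_product]
        exact ⟨⟨Finset.mem_range.mpr hs, Finset.mem_range.mpr ht⟩, hst⟩
      exact hmin (s, t) hm
  · refine ⟨1, one_pos, ?_⟩
    intro s hs t ht hst
    exfalso
    apply hne
    refine ⟨(s, t), ?_⟩
    rw [hP, Finset.mem_filter, Finset.mem_product]
    exact ⟨⟨Finset.mem_range.mpr hs, Finset.mem_range.mpr ht⟩, hst⟩

/-- The cycle: if `l = 2 - 2 cos (2π/K)` satisfies `γ μ ≤ l/2`, `3l/2 ≤ γ L` and `1 - β` is small,
some function of the class has a cycle of length `K`, so the rate is at least `1`. -/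
lemma one_le_rate_of_params {γ β μ L d l : ℝ} {K : ℕ} (hK : 2 ≤ K) (hμ : 0 < μ) (hμL : μ ≤ L)
    (hγ : 0 < γ) (hl : l = 2 - 2 * Real.cos (2 * Real.pi / K)) (hd : 0 < d)
    (hgap : ∀ s < K, ∀ t < K, pt K t < pt K s → d ≤ pt K s - pt K t)
    (hβ0 : 0 ≤ 1 - β) (hβ1 : (1 - β) * (1 + 2 / d) ≤ l / 2)
    (h1 : γ * μ ≤ l / 2) (h2 : 3 * l / 2 ≤ γ * L) : 1 ≤ rate γ β μ L := by
  have hK0 : 0 < K := by omega
  set x : ℕ → ℝ := fun t => pt K (t : ℤ) with hx
  set g : ℕ → ℝ := fun t =>
    (l * pt K (t : ℤ) - (1 - β) * (pt K (t : ℤ) - pt K ((t : ℤ) - 1))) / γ with hg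
  have hslope : ∀ s < K, ∀ t < K, x t ≤ x s →
      μ * (x s - x t) ≤ g s - g t ∧ g s - g t ≤ L * (x s - x t) := by
    intro s hs t ht hle
    rcases eq_or_lt_of_le hle with heq | hlt
    · have hst : t = s := pt_injective hK0 ht hs heq
      subst hst
      simp
    · have hdist := hgap s hs t ht hlt
      have hge : x s - x t = pt K (s : ℤ) - pt K (t : ℤ) := rfl
      have hpos : 0 < x s - x t := by linarith
      have hb1 := abs_le.mp (pt_abs_le K ((s : ℤ) - 1))
      have hb2 := abs_le.mp (pt_abs_le K ((t : ℤ) - 1))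
      set P := pt K ((s : ℤ) - 1) - pt K ((t : ℤ) - 1) with hPdef
      have hP1 : P ≤ (2 / d) * (x s - x t) := by
        have h3 : 2 ≤ (2 / d) * (x s - x t) := by
          rw [div_mul_eq_mul_div, le_div_iff₀ hd]
          rw [hge]; nlinarith
        linarith [hb1.2, hb2.1]
      have hP2 : -((2 / d) * (x s - x t)) ≤ P := by
        have h3 : 2 ≤ (2 / d) * (x s - x t) := by
          rw [div_mul_eq_mul_div, le_div_iff₀ hd]
          rw [hge]; nlinarith
        linarith [hb1.1, hb2.2]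
      have hgd : γ * (g s - g t) = (l - (1 - β)) * (x s - x t) + (1 - β) * P := by
        simp only [hg, hx, hPdef]
        field_simp
        ring
      have h5 : (1 - β) * P ≤ (1 - β) * ((2 / d) * (x s - x t)) :=
        mul_le_mul_of_nonneg_left hP1 hβ0
      have h6 : (1 - β) * (-((2 / d) * (x s - x t))) ≤ (1 - β) * P :=
        mul_le_mul_of_nonneg_left hP2 hβ0
      have h7 : (1 - β) * (1 + 2 / d) * (x s - x t) ≤ l / 2 * (x s - x t) :=
        mul_le_mul_of_nonneg_right hβ1 hpos.le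
      have h8 : γ * μ * (x s - x t) ≤ l / 2 * (x s - x t) :=
        mul_le_mul_of_nonneg_right h1 hpos.le
      have h9 : 3 * l / 2 * (x s - x t) ≤ γ * L * (x s - x t) :=
        mul_le_mul_of_nonneg_right h2 hpos.le
      have h10 : 0 ≤ (1 - β) * (x s - x t) := mul_nonneg hβ0 hpos.le
      constructor
      · have : γ * (μ * (x s - x t)) ≤ γ * (g s - g t) := by
          rw [hgd]; nlinarith
        exact le_of_mul_le_mul_left this hγ
      · have : γ * (g s - g t) ≤ γ * (L * (x s - x t)) := by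
          rw [hgd]; nlinarith
        exact le_of_mul_le_mul_left this hγ
  obtain ⟨f, hf, hfval⟩ := exists_interpolant hK0 hμL x g hslope
  have hper : ∀ t : ℕ, x (t + K) = x t := by
    intro t
    have := pt_period hK0 (t : ℤ)
    simp only [hx]
    push_cast
    exact this
  have hgper : ∀ t : ℕ, g (t + K) = g t := by
    intro t
    have h3 := pt_period hK0 (t : ℤ)
    have h4 := pt_period hK0 ((t : ℤ) - 1)
    simp only [hg]
    push_cast
    rw [h3, show (t : ℤ) + K - 1 = ((t : ℤ) - 1) + K by ring, h4]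
  have hfval' : ∀ t : ℕ, deriv f (x t) = g t := by
    intro t
    induction t using Nat.strong_induction_on with
    | _ t ih =>
      by_cases htK : t < K
      · exact hfval t htK
      · have h3 : t = (t - K) + K := by omega
        rw [h3, hper, hgper]
        exact ih (t - K) (by omega)
  have hrun : IsHeavyBallRun γ β f x := by
    intro t
    rw [hfval' (t + 1)]
    simp only [hg, hx]
    have h3 := pt_rec K hK0 ((t : ℤ) + 1)
    push_cast
    rw [show (t : ℤ) + 1 + 1 = (t : ℤ) + 2 by ring, show (t : ℤ) + 1 - 1 = (t : ℤ) by ring] at h3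
    rw [show (t : ℤ) + 1 - 1 = (t : ℤ) by ring, mul_div_cancel₀ _ (ne_of_gt hγ)]
    rw [hl]
    linarith
  refine one_le_rate_of_cycle hμ hf hrun hK0 hper ?_
  intro h
  have := pt_injective hK0 (s := 0) (t := 1) (by omega) (by omega) h
  omega

/-- Uniform form: for every `c > 0`, once `μ/L` is small enough no choice of parameters has
`rate + c √(μ/L) ≤ 1`. -/
theorem no_acceleration_uniform (c : ℝ) (hc : 0 < c) :
    ∃ κ₁ : ℝ, 0 < κ₁ ∧ ∀ μ L γ β : ℝ, 0 < μ → μ < L → μ / L ≤ κ₁ →
      1 < rate γ β μ L + ENNReal.ofReal (c * Real.sqrt (μ / L)) := by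
  -- choose the cycle length
  have hlim : Tendsto (fun K : ℕ => 2 - 2 * Real.cos (2 * Real.pi / (K : ℝ))) atTop (𝓝 0) := by
    have h1 : Tendsto (fun K : ℕ => 2 * Real.pi / (K : ℝ)) atTop (𝓝 0) :=
      tendsto_const_div_atTop_nhds_zero_nat _
    have h2 := (Real.continuous_cos.tendsto 0).comp h1
    rw [Real.cos_zero] at h2
    have h3 := (h2.const_mul 2).const_sub 2
    simpa using h3
  have hev : ∀ᶠ K : ℕ in atTop, 2 - 2 * Real.cos (2 * Real.pi / (K : ℝ)) < c ^ 2 / 2 :=
    hlim.eventually_lt_const (by positivity)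
  obtain ⟨K, hK1, hK2⟩ := (hev.and (eventually_ge_atTop 3)).exists
  set l : ℝ := 2 - 2 * Real.cos (2 * Real.pi / (K : ℝ)) with hl
  have hK0 : 0 < K := by omega
  have hl0 : 0 < l := by
    have hKr : (3 : ℝ) ≤ K := by exact_mod_cast hK2
    have h1 : Real.cos (2 * Real.pi / (K : ℝ)) < 1 := by
      rw [← Real.cos_zero]
      have hp := Real.pi_pos
      apply Real.cos_lt_cos_of_nonneg_of_le_pi le_rfl
      · rw [div_le_iff₀ (by linarith)]; nlinarith
      · positivity
    rw [hl]; linarith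
  obtain ⟨d, hd, hgap⟩ := exists_gap hK0
  set E : ℝ := 1 + 2 / d with hE
  have hE0 : 0 < E := by positivity
  set s : ℝ := min (min 1 (1 / (2 * c))) (min (l / 8) (l * c / (16 * E))) with hs
  have hs0 : 0 < s := by
    rw [hs]
    refine lt_min (lt_min one_pos (by positivity)) (lt_min (by positivity) (by positivity))
  have hs1 : s ≤ 1 := (min_le_left _ _).trans (min_le_left _ _)
  have hs2 : s ≤ 1 / (2 * c) := (min_le_left _ _).trans (min_le_right _ _)
  have hs3 : s ≤ l / 8 := (min_le_right _ _).trans (min_le_left _ _)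
  have hs4 : s ≤ l * c / (16 * E) := (min_le_right _ _).trans (min_le_right _ _)
  refine ⟨s ^ 2, by positivity, ?_⟩
  intro μ L γ β hμ hμL hq
  by_contra hcon
  push Not at hcon
  have hL : 0 < L := hμ.trans hμL
  set q : ℝ := μ / L with hqdef
  have hq0 : 0 < q := div_pos hμ hL
  set r : ℝ := Real.sqrt q with hr
  have hr0 : 0 < r := Real.sqrt_pos.mpr hq0
  have hrs : r ≤ s := by
    rw [hr]
    calc Real.sqrt q ≤ Real.sqrt (s ^ 2) := Real.sqrt_le_sqrt hq
      _ = s := Real.sqrt_sq hs0.le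
  have hr2 : r ^ 2 = q := Real.sq_sqrt hq0.le
  have hη : 0 < c * r := mul_pos hc hr0
  have hη1 : c * r < 1 := by
    have h1 : c * r ≤ c * (1 / (2 * c)) := mul_le_mul_of_nonneg_left (hrs.trans hs2) hc.le
    have h2 : c * (1 / (2 * c)) = 1 / 2 := by field_simp
    rw [h2] at h1
    linarith
  obtain ⟨hβ, hA1, _, hA3⟩ := quad_consequences le_rfl hμL.le hμ hη hη1 hcon
  obtain ⟨_, _, hB2, _⟩ := quad_consequences hμL.le le_rfl hμ hη hη1 hcon
  have hμq : μ = L * q := by rw [hqdef]; field_simp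
  have hγμ : γ * μ = (γ * L) * r ^ 2 := by rw [hr2, hμq]; ring
  have hr2pos : 0 < r ^ 2 := by positivity
  have hγL : c ^ 2 ≤ γ * L := by
    have h1 : (c * r) ^ 2 ≤ (γ * L) * r ^ 2 := by rw [← hγμ]; exact hA1
    have h2 : c ^ 2 * r ^ 2 ≤ (γ * L) * r ^ 2 := by linarith [mul_pow c r 2]
    exact le_of_mul_le_mul_right h2 hr2pos
  have hγ : 0 < γ := by
    have : 0 < γ * L := lt_of_lt_of_le (by positivity) hγL
    exact (mul_pos_iff_of_pos_right hL).mp this
  have hγμ4 : γ * μ ≤ 4 * r ^ 2 := by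
    rw [hγμ]; exact mul_le_mul_of_nonneg_right hB2 hr2pos.le
  have hrr : r ^ 2 ≤ s := by
    have : r ≤ 1 := hrs.trans hs1
    nlinarith
  have c1 : γ * μ ≤ l / 2 := by linarith
  have c2 : 3 * l / 2 ≤ γ * L := by nlinarith
  have hβ0 : 0 ≤ 1 - β := by linarith [(abs_le.mp hβ).2]
  have c3 : (1 - β) * E ≤ l / 2 := by
    -- `(1-β) c r ≤ 2 γ μ ≤ 8 r²`
    have h1 : (1 - β) * c ≤ 8 * r := by
      have h2 : (1 - β) * c * r ≤ 8 * r * r := by nlinarith
      exact le_of_mul_le_mul_right h2 hr0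
    have h3 : r ≤ l * c / (16 * E) := hrs.trans hs4
    have h4 : r * (16 * E) ≤ l * c := (le_div_iff₀ (by positivity)).mp h3
    have h5 : (1 - β) * E * c ≤ l / 2 * c := by nlinarith
    exact le_of_mul_le_mul_right h5 hc
  have h1 := one_le_rate_of_params (K := K) (by omega) hμ hμL.le hγ hl hd hgap hβ0 c3 c1 c2
  have h2 : (1 : ENNReal) + ENNReal.ofReal (c * r) ≤ 1 := (add_le_add_left h1 _).trans hcon
  have h3 : (1 : ENNReal) < 1 + ENNReal.ofReal (c * r) := by
    apply ENNReal.lt_add_right ENNReal.one_ne_top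
    exact ne_of_gt (ENNReal.ofReal_pos.mpr hη)
  exact absurd h2 (not_le.mpr h3)

/-- No tuning of the heavy-ball method accelerates over the scalar class. -/
theorem result : ¬ ∃ γ β : ℝ → ℝ → ℝ, Accelerates γ β := by
  rintro ⟨γ, β, c, hc, κ₀, hκ0, hκ1, h⟩
  obtain ⟨κ₁, hκ₁, hu⟩ := no_acceleration_uniform c hc
  set q : ℝ := min κ₀ κ₁ with hq
  have hq0 : 0 < q := lt_min hκ0 hκ₁
  have hq1 : q < 1 := lt_of_le_of_lt (min_le_left _ _) hκ1
  have h1 := h q 1 hq0 hq1 (by rw [div_one]; exact min_le_left _ _)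
  have h2 := hu q 1 (γ q 1) (β q 1) hq0 hq1 (by rw [div_one]; exact min_le_right _ _)
  exact absurd h1 (not_le.mpr h2)

end Pool.Agent.Results.MP_a6d20f_an.NoScalarAcceleration
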